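import Mathlib
import Pool.Agent.H95.SingleController

open MeasureTheory Filter Topology

namespace Pool.Agent.Results.MP_5b044e_pr.LimitValue

/-- A percolation game on `ℤ^d` with action sets `I` (Player 1, the maximiser) and `J`
(Player 2, the minimiser): a probability space with a measure preserving ergodic action of
`ℤ^d`, uniformly bounded stationary payoffs, and a transition map. -/
structure PercolationGame (d : ℕ) (I J Ω : Type*) [MeasurableSpace Ω] where
  /-- the probability measure -/
  P : Measure Ω
  prob : IsProbabilityMeasure P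
  /-- the measure preserving maps `τ_z` -/
  shift : (Fin d → ℤ) → Ω → Ω
  shift_preserving : ∀ z, MeasurePreserving (shift z) P P
  shift_add : ∀ z z', shift (z + z') = shift z ∘ shift z'
  ergodic : ∀ F : Set Ω, MeasurableSet F → (∀ z, shift z '' F = F) → P F = 0 ∨ P F = 1
  /-- the payoffs `g_ω(z, i, j)` -/
  payoff : Ω → (Fin d → ℤ) → I → J → ℝ
  payoff_measurable : ∀ z i j, Measurable fun ω => payoff ω z i j
  payoff_bounded : ∃ C : ℝ, ∀ ω z i j, |payoff ω z i j| ≤ C
  payoff_stationary : ∀ z ω z' i j, payoff (shift z ω) z' i j = payoff ω (z + z') i j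
  /-- the transition map `q` -/
  trans : I → J → (Fin d → ℤ)

namespace PercolationGame

variable {d : ℕ} {I J Ω : Type*} [MeasurableSpace Ω]

/-- The state reached from `z` after the (chronological) list `h` of action pairs. -/
def state (G : PercolationGame d I J Ω) (z : Fin d → ℤ) (h : List (I × J)) : Fin d → ℤ :=
  z + (h.map fun a => G.trans a.1 a.2).sum

/-- The list of the first `m` action pairs when Player 1 follows `σ` (an action for every past
history) and Player 2 follows `τ` (an action for every past history and current action of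
Player 1). -/
def history (σ : List (I × J) → I) (τ : List (I × J) → I → J) : ℕ → List (I × J)
  | 0 => []
  | m + 1 => history σ τ m ++ [(σ (history σ τ m), τ (history σ τ m) (σ (history σ τ m)))]

/-- The average payoff `(1/n) ∑_{m=1}^n g_ω(z_m, i_m, j_m)` when the game starts at `z`. -/
noncomputable def averagePayoff (G : PercolationGame d I J Ω) (ω : Ω) (z : Fin d → ℤ) (n : ℕ)
    (σ : List (I × J) → I) (τ : List (I × J) → I → J) : ℝ :=
  (1 / (n : ℝ)) * ∑ m ∈ Finset.range n, G.payoff ω (G.state z (history σ τ m))
    (σ (history σ τ m)) (τ (history σ τ m) (σ (history σ τ m)))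

/-- The value `v_n^ω(z)` of the `n`-stage game: the max-min of the average payoff. -/
noncomputable def value (G : PercolationGame d I J Ω) (n : ℕ) (z : Fin d → ℤ) (ω : Ω) : ℝ :=
  ⨆ σ : List (I × J) → I, ⨅ τ : List (I × J) → I → J, G.averagePayoff ω z n σ τ

/-- The game is one-player: one of the two action sets is a singleton. -/
def OnePlayer (_ : PercolationGame d I J Ω) : Prop := Subsingleton I ∨ Subsingleton J

/-- The game has a limit value: for every start `z`, `v_n(z)` converges almost surely. -/
def HasLimitValue (G : PercolationGame d I J Ω) : Prop :=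
  ∀ z : Fin d → ℤ, ∀ᵐ ω ∂G.P, ∃ v : ℝ, Tendsto (fun n : ℕ => G.value n z ω) atTop (𝓝 v)

end PercolationGame

section aux

open Pool.Agent.H95.Single

lemma iSup_congr_range {α β : Type*} {f : α → ℝ} {g : β → ℝ} (h1 : ∀ a, ∃ b, f a = g b)
    (h2 : ∀ b, ∃ a, f a = g b) : ⨆ a, f a = ⨆ b, g b := by
  have : Set.range f = Set.range g := by
    ext x
    constructor
    · rintro ⟨a, rfl⟩
      obtain ⟨b, hb⟩ := h1 a
      exact ⟨b, hb.symm⟩
    · rintro ⟨b, rfl⟩
      obtain ⟨a, ha⟩ := h2 b
      exact ⟨a, ha⟩
  rw [iSup, iSup, this]

lemma iInf_eq_neg {α : Type*} (f : α → ℝ) : ⨅ a, f a = -⨆ a, -f a := by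
  rw [iInf, Real.sInf_def, iSup]
  congr 2
  ext x
  simp only [Set.mem_neg, Set.mem_range]
  constructor
  · rintro ⟨a, ha⟩; exact ⟨a, by linarith⟩
  · rintro ⟨a, ha⟩; exact ⟨a, by linarith⟩

variable {V A : Type*} [AddCommGroup V]

lemma tot_concat (r : V → A → ℝ) (s : A → V) (z : V) (w : List A) (a : A) :
    tot r s z (w ++ [a]) = tot r s z w + r (z + (w.map s).sum) a := by
  rw [tot_append]
  simp [tot]

lemma tot_neg (r : V → A → ℝ) (s : A → V) (w : List A) : ∀ z,
    tot (fun z a => -r z a) s z w = -tot r s z w := by
  induction w with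
  | nil => intro z; simp [tot]
  | cons a w ih => intro z; simp only [tot, ih]; ring

lemma tot_add_const (r : V → A → ℝ) (s : A → V) (C : ℝ) (w : List A) : ∀ z,
    tot (fun z a => r z a + C) s z w = tot r s z w + C * w.length := by
  induction w with
  | nil => intro z; simp [tot]
  | cons a w ih => intro z; simp only [tot, ih, List.length_cons]; push_cast; ring

lemma M_add_const [Finite A] [Nonempty A] (r : V → A → ℝ) (s : A → V) (C : ℝ) (z : V) (n : ℕ) :
    M (fun z a => r z a + C) s z n = M r s z n + C * n := by
  apply le_antisymm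
  · apply ciSup_le
    rintro ⟨w, hw⟩
    simp only
    rw [tot_add_const, hw]
    have := le_M r s z n w hw
    linarith
  · have h1 : M r s z n ≤ M (fun z a => r z a + C) s z n - C * n := by
      apply ciSup_le
      rintro ⟨w, hw⟩
      have h2 := le_M (fun z a => r z a + C) s z n w hw
      rw [tot_add_const, hw] at h2
      simp only
      linarith
    linarith

/-- almost sure convergence for a bounded stationary reward and a single controller -/
lemma converges_of_bounded {Ω : Type*} [MeasurableSpace Ω] {μ : Measure Ω}
    [IsProbabilityMeasure μ] [Finite A] [Nonempty A] {r : Ω → V → A → ℝ} (s : A → V)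
    (hrm : ∀ z a, Measurable fun ω => r ω z a) {C : ℝ} (hb : ∀ ω z a, |r ω z a| ≤ C)
    {T : V → Ω → Ω} (hT : ∀ ξ, MeasurePreserving (T ξ) μ μ)
    (hstat : ∀ ξ ω z a, r (T ξ ω) z a = r ω (ξ + z) a) (z : V) :
    ∀ᵐ ω ∂μ, ∃ L, Tendsto (fun n : ℕ => M (r ω) s z n / n) atTop (𝓝 L) := by
  have h := single_controller (r := fun ω z a => r ω z a + C) (μ := μ) s
    (fun z a => (hrm z a).add_const C) (C := 2 * C)
    (fun ω z a => by have := (abs_le.1 (hb ω z a)).1; linarith)
    (fun ω z a => by have := (abs_le.1 (hb ω z a)).2; linarith) hT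
    (fun ξ ω z a => by rw [hstat]) z
  filter_upwards [h] with ω hω
  obtain ⟨L, hL⟩ := hω
  refine ⟨L - C, ?_⟩
  have h2 := hL.sub_const C
  refine h2.congr' ?_
  filter_upwards [eventually_ge_atTop 1] with n hn
  have hnpos : (0 : ℝ) < n := by exact_mod_cast hn
  have h3 := M_add_const (r ω) s C z n
  rw [h3]
  field_simp
  ring

open PercolationGame

variable {d : ℕ} {I J Ω : Type*} [MeasurableSpace Ω]

lemma history_length (σ : List (I × J) → I) (τ : List (I × J) → I → J) (m : ℕ) :
    (history σ τ m).length = m := by
  induction m with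
  | zero => simp [history]
  | succ m ih => simp [history, ih]

/-- playing the prescribed list `w` of actions of Player 1 -/
lemma history_play1 [Inhabited I] (τ : List (I × J) → I → J) (w : List I) (m : ℕ)
    (hm : m ≤ w.length) :
    (history (fun h => (w[h.length]?).getD default) τ m).map Prod.fst = w.take m := by
  induction m with
  | zero => simp [history]
  | succ m ih =>
    simp only [history, List.map_append, List.map_cons, List.map_nil, history_length]
    rw [ih (by omega), List.getElem?_eq_getElem (by omega : m < w.length), Option.getD_some,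
      List.take_concat_get']

/-- playing the prescribed list `w` of actions of Player 2 -/
lemma history_play2 [Inhabited J] (σ : List (I × J) → I) (w : List J) (m : ℕ)
    (hm : m ≤ w.length) :
    (history σ (fun h _ => (w[h.length]?).getD default) m).map Prod.snd = w.take m := by
  induction m with
  | zero => simp [history]
  | succ m ih =>
    simp only [history, List.map_append, List.map_cons, List.map_nil, history_length]
    rw [ih (by omega), List.getElem?_eq_getElem (by omega : m < w.length), Option.getD_some,
      List.take_concat_get']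

/-- total payoff when Player 2 has a single action `j` -/
lemma sum_eq_tot1 (G : PercolationGame d I J Ω) (j : J) (hJ : ∀ j', j' = j) (ω : Ω)
    (z : Fin d → ℤ) (σ : List (I × J) → I) (τ : List (I × J) → I → J) (n : ℕ) :
    ∑ m ∈ Finset.range n, G.payoff ω (G.state z (history σ τ m))
      (σ (history σ τ m)) (τ (history σ τ m) (σ (history σ τ m))) =
    tot (fun z i => G.payoff ω z i j) (fun i => G.trans i j) z
      ((history σ τ n).map Prod.fst) := by
  induction n with
  | zero => simp [history, tot]
  | succ n ih =>
    rw [Finset.sum_range_succ, ih]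
    conv_rhs => rw [history, List.map_append, List.map_cons, List.map_nil, tot_concat]
    congr 2
    · simp only [state, List.map_map]
      congr 2
      apply List.map_congr_left
      intro a _
      simp [hJ a.2]
    · exact hJ _

/-- total payoff when Player 1 has a single action `i` -/
lemma sum_eq_tot2 (G : PercolationGame d I J Ω) (i : I) (hI : ∀ i', i' = i) (ω : Ω)
    (z : Fin d → ℤ) (σ : List (I × J) → I) (τ : List (I × J) → I → J) (n : ℕ) :
    ∑ m ∈ Finset.range n, G.payoff ω (G.state z (history σ τ m))
      (σ (history σ τ m)) (τ (history σ τ m) (σ (history σ τ m))) =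
    tot (fun z j => G.payoff ω z i j) (fun j => G.trans i j) z
      ((history σ τ n).map Prod.snd) := by
  induction n with
  | zero => simp [history, tot]
  | succ n ih =>
    rw [Finset.sum_range_succ, ih]
    conv_rhs => rw [history, List.map_append, List.map_cons, List.map_nil, tot_concat]
    rw [hI (σ (history σ τ n))]
    simp only [state, List.map_map]
    congr 3
    congr 1
    apply List.map_congr_left
    intro a _
    simp [hI a.1]

/-- the value when Player 2 has a single action -/
lemma value_eq1 [Finite I] [Nonempty I] (G : PercolationGame d I J Ω) (j : J)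
    (hJ : ∀ j', j' = j) (n : ℕ) (z : Fin d → ℤ) (ω : Ω) :
    G.value n z ω = M (fun z i => G.payoff ω z i j) (fun i => G.trans i j) z n / n := by
  have hsub : Subsingleton (List (I × J) → I → J) :=
    ⟨fun a b => by funext h i; rw [hJ (a h i), hJ (b h i)]⟩
  have hinh : Inhabited I := ⟨Classical.arbitrary I⟩
  set τ0 : List (I × J) → I → J := fun _ _ => j with hτ0
  have h1 : ∀ σ : List (I × J) → I, ⨅ τ, G.averagePayoff ω z n σ τ
      = (1 / (n : ℝ)) * tot (fun z i => G.payoff ω z i j) (fun i => G.trans i j) z
      ((history σ τ0 n).map Prod.fst) := by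
    intro σ
    rw [ciInf_subsingleton τ0]
    simp only [averagePayoff]
    rw [sum_eq_tot1 G j hJ]
  simp only [value, h1]
  rw [← Real.mul_iSup_of_nonneg (by positivity)]
  have h2 : (⨆ σ : List (I × J) → I, tot (fun z i => G.payoff ω z i j) (fun i => G.trans i j) z
      ((history σ τ0 n).map Prod.fst)) = M (fun z i => G.payoff ω z i j)
      (fun i => G.trans i j) z n := by
    apply iSup_congr_range
    · intro σ
      exact ⟨⟨(history σ τ0 n).map Prod.fst, by simp [history_length]⟩, rfl⟩
    · rintro ⟨w, hw⟩
      refine ⟨fun h => (w[h.length]?).getD default, ?_⟩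
      rw [history_play1 τ0 w n hw.ge, List.take_of_length_le hw.le]
  rw [h2]
  ring

/-- the value when Player 1 has a single action -/
lemma value_eq2 [Finite J] [Nonempty J] (G : PercolationGame d I J Ω) (i : I)
    (hI : ∀ i', i' = i) (n : ℕ) (z : Fin d → ℤ) (ω : Ω) :
    G.value n z ω = -(M (fun z j => -G.payoff ω z i j) (fun j => G.trans i j) z n / n) := by
  have hsub : Subsingleton (List (I × J) → I) :=
    ⟨fun a b => by funext h; rw [hI (a h), hI (b h)]⟩
  have hinh : Inhabited J := ⟨Classical.arbitrary J⟩
  set σ0 : List (I × J) → I := fun _ => i with hσ0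
  have h1 : G.value n z ω = ⨅ τ, G.averagePayoff ω z n σ0 τ := by
    simp only [value]
    rw [ciSup_subsingleton σ0]
  rw [h1, iInf_eq_neg]
  have h2 : ∀ τ, -G.averagePayoff ω z n σ0 τ = (1 / (n : ℝ)) *
      tot (fun z j => -G.payoff ω z i j) (fun j => G.trans i j) z
      ((history σ0 τ n).map Prod.snd) := by
    intro τ
    simp only [averagePayoff]
    rw [sum_eq_tot2 G i hI, tot_neg]
    ring
  simp only [h2]
  rw [← Real.mul_iSup_of_nonneg (by positivity)]
  have h3 : (⨆ τ : List (I × J) → I → J, tot (fun z j => -G.payoff ω z i j)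
      (fun j => G.trans i j) z ((history σ0 τ n).map Prod.snd)) =
      M (fun z j => -G.payoff ω z i j) (fun j => G.trans i j) z n := by
    apply iSup_congr_range
    · intro τ
      exact ⟨⟨(history σ0 τ n).map Prod.snd, by simp [history_length]⟩, rfl⟩
    · rintro ⟨w, hw⟩
      refine ⟨fun h _ => (w[h.length]?).getD default, ?_⟩
      rw [history_play2 σ0 w n hw.ge, List.take_of_length_le hw.le]
  rw [h3]
  ring

end aux

/-- **Every one-player percolation game has a limit value.** -/
theorem result {d : ℕ} {I J Ω : Type*} [MeasurableSpace Ω] [Finite I] [Finite J] [Nonempty I]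
    [Nonempty J] (G : PercolationGame d I J Ω) (hG : G.OnePlayer) : G.HasLimitValue := by
  intro z
  have := G.prob
  obtain ⟨C, hC⟩ := G.payoff_bounded
  rcases hG with hI | hJ
  · set i : I := Classical.arbitrary I
    have hI' : ∀ i', i' = i := fun i' => Subsingleton.elim _ _
    have h := converges_of_bounded (r := fun ω z j => -G.payoff ω z i j) (μ := G.P)
      (fun j => G.trans i j) (fun z j => (G.payoff_measurable z i j).neg) (C := C)
      (fun ω z j => by rw [abs_neg]; exact hC ω z i j) G.shift_preserving
      (fun ξ ω z a => by rw [G.payoff_stationary]) z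
    filter_upwards [h] with ω hω
    obtain ⟨L, hL⟩ := hω
    refine ⟨-L, ?_⟩
    simp only [value_eq2 G i hI']
    exact hL.neg
  · set j : J := Classical.arbitrary J
    have hJ' : ∀ j', j' = j := fun j' => Subsingleton.elim _ _
    have h := converges_of_bounded (r := fun ω z i => G.payoff ω z i j) (μ := G.P)
      (fun i => G.trans i j) (fun z i => (G.payoff_measurable z i j)) (C := C)
      (fun ω z i => hC ω z i j) G.shift_preserving
      (fun ξ ω z a => by rw [G.payoff_stationary]) z
    filter_upwards [h] with ω hω
    obtain ⟨L, hL⟩ := hω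
    refine ⟨L, ?_⟩
    simp only [value_eq1 G j hJ']
    exact hL

end Pool.Agent.Results.MP_5b044e_pr.LimitValue
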